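import Pool.Agent.Lib.MP_688fd0_co.SQ5.N.Iface
import Pool.Agent.Lib.MP_688fd0_co.SQ4.H69.NoCut

/-!
Row GRAPH of the NEAR-3 board (`GraphNS`): the puzzle of a component of the tube.

Strands = `(ℤ × D) / ⟨(e, w)⟩`; the group `ℤ × D` acts on the left by automorphisms of the graph; the neighbours of a
strand are its right translates.
-/

set_option autoImplicit false

namespace Pool.Agent.Lib.MP_688fd0_co.SQ5.H88

open Pool.Agent.Lib.MP_688fd0_co.SQ2.V Pool.Agent.Lib.MP_688fd0_co.SQ2.V.Puz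
open Pool.Agent.Lib.MP_688fd0_co.SQ5.N

/-! ### Group theory -/

section grp

variable {D : Type} [Group D]

theorem comm_of_rel {w p : D} (h2 : Commute (w ^ 2) p) (c : ℤ) (h : p * w ^ c * p = w ^ (c + 1)) : p * w = w * p := by
  rcases Int.even_or_odd' c with ⟨m, rfl | rfl⟩
  · have h3 : Commute (w ^ (2 * m)) p := by
      rw [zpow_mul, zpow_ofNat]
      exact h2.zpow_left m
    have h4 : w ^ (2 * m) * (p * p) = w ^ (2 * m) * w := by
      rw [← mul_assoc, h3.eq, h, zpow_add_one]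
    have h5 : p * p = w := mul_left_cancel h4
    rw [← h5, mul_assoc]
  · have h3 : Commute (w ^ (2 * m)) p := by
      rw [zpow_mul, zpow_ofNat]
      exact h2.zpow_left m
    have h4 : w ^ (2 * m) * (p * w * p) = w ^ (2 * m) * (w * w) := by
      have h5 : p * w ^ (2 * m + 1) * p = w ^ (2 * m) * (p * w * p) := by
        rw [zpow_add_one, ← mul_assoc p, ← h3.eq]
        group
      rw [← h5, h, zpow_add_one, zpow_add_one, mul_assoc]
    have h5 : p * w * p = w * w := mul_left_cancel h4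
    -- `w ^ 3` commutes with `p`
    have h6 : p * (w * w * w) = w * w * w * p := by
      calc p * (w * w * w) = p * (w * (w * w)) := by rw [mul_assoc w w w]
        _ = p * (w * (p * w * p)) := by rw [h5]
        _ = (p * w * p) * w * p := by group
        _ = w * w * w * p := by rw [h5]
    have h7 : w * w * p = p * (w * w) := by
      have := h2.eq
      rwa [pow_two] at this
    have h8 : p * (w * w) * w = (w * w) * (w * p) := by
      rw [mul_assoc, mul_assoc w w w] at *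
      rw [h6]
      group
    rw [← h7, mul_assoc (w * w) p w] at h8
    exact mul_left_cancel h8

end grp

/-! ### Strands -/

section st

variable {D : Type} [Group D] {e : ℕ} [NeZero e] {w : D}

theorem e_ne : (e : ℤ) ≠ 0 := by exact_mod_cast NeZero.ne e

theorem e_pos : (0 : ℤ) < e := by exact_mod_cast NeZero.pos e

theorem stN_iff {n n' : ℤ} {d d' : D} :
    stN e w n d = stN e w n' d' ↔ ∃ t : ℤ, n' = n + e * t ∧ d' = d * w ^ t := by
  constructor
  · intro h
    rw [stN, stN, Prod.mk.injEq, Fin.mk.injEq] at h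
    obtain ⟨h1, h2⟩ := h
    have h3 : n % (e : ℤ) = n' % (e : ℤ) := by
      have a1 := Int.emod_nonneg n (e_ne (e := e))
      have a2 := Int.emod_nonneg n' (e_ne (e := e))
      omega
    refine ⟨n' / e - n / e, ?_, ?_⟩
    · have a1 := Int.emod_add_mul_ediv n e
      have a2 := Int.emod_add_mul_ediv n' e
      rw [mul_sub]
      linarith
    · rw [sub_eq_neg_add, zpow_add, ← mul_assoc, h2, mul_assoc, ← zpow_add, neg_add_cancel, zpow_zero, mul_one]
  · rintro ⟨t, rfl, rfl⟩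
    rw [stN, stN, Prod.mk.injEq, Fin.mk.injEq]
    refine ⟨?_, ?_⟩
    · rw [Int.add_mul_emod_self_left]
    · rw [Int.add_mul_ediv_left _ _ (e_ne (e := e)), mul_assoc, ← zpow_add]
      congr 2
      ring

theorem stN_self (s : Fin e × D) : stN e w (s.1 : ℤ) s.2 = s := by
  have h1 : ((s.1 : ℕ) : ℤ) < (e : ℤ) := by exact_mod_cast s.1.2
  have h2 : ((s.1 : ℕ) : ℤ) % (e : ℤ) = (s.1 : ℕ) := Int.emod_eq_of_lt (by positivity) h1
  have h3 : ((s.1 : ℕ) : ℤ) / (e : ℤ) = 0 := Int.ediv_eq_zero_of_lt (by positivity) h1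
  rw [stN]
  refine Prod.ext (Fin.ext ?_) ?_
  · simp only [h2, Int.toNat_natCast]
  · simp only [h3, neg_zero, zpow_zero, mul_one]

theorem stN_eq {n : ℤ} {d : D} {s : Fin e × D} :
    stN e w n d = s ↔ ∃ t : ℤ, (s.1 : ℤ) = n + e * t ∧ s.2 = d * w ^ t := by
  conv_lhs => rw [← stN_self (w := w) s]
  exact stN_iff

/-- Left translations. -/
def act (e : ℕ) [NeZero e] (w : D) (m : ℤ) (g : D) (s : Fin e × D) : Fin e × D := stN e w ((s.1 : ℤ) + m) (g * s.2)

theorem act_st (m : ℤ) (g : D) (n : ℤ) (d : D) : act e w m g (stN e w n d) = stN e w (n + m) (g * d) := by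
  obtain ⟨t, h1, h2⟩ := stN_eq.1 (rfl : stN e w n d = stN e w n d)
  rw [act, h1, h2]
  symm
  rw [stN_iff]
  exact ⟨t, by ring, by rw [mul_assoc]⟩

/-- Left translations as permutations. -/
def actP (e : ℕ) [NeZero e] (w : D) (m : ℤ) (g : D) : Equiv.Perm (Fin e × D) where
  toFun := act e w m g
  invFun := act e w (-m) g⁻¹
  left_inv s := by
    show act e w (-m) g⁻¹ (stN e w _ _) = s
    rw [act_st, inv_mul_cancel_left, add_neg_cancel_right, stN_self]
  right_inv s := by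
    show act e w m g (stN e w _ _) = s
    rw [act_st, mul_inv_cancel_left, neg_add_cancel_right, stN_self]

theorem act_ne {m : ℤ} (hm : ¬ (e : ℤ) ∣ m) (g : D) (s : Fin e × D) : act e w m g s ≠ s := by
  intro h
  obtain ⟨t, h1, -⟩ := stN_eq.1 h
  exact hm ⟨-t, by linarith⟩

variable {p : D} {i k : ℕ}

/-- The other end of the rung of the index `l` at the vertex `(n, d)`. -/
def Yz (e : ℕ) [NeZero e] (w p : D) (i : ℕ) (n : ℤ) (d : D) (l : ℤ) : Fin e × D :=
  stN e w (n + e * l - i) (d * w ^ l * p⁻¹)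

theorem yN_eq (s : Fin e × D) (l : Fin k) : yN e w p i k (s, l) = Yz e w p i s.1 s.2 (l : ℕ) := by
  rw [yN, Yz, zpow_natCast]

theorem Yz_shift (n : ℤ) (d : D) (l t : ℤ) : Yz e w p i (n + e * t) (d * w ^ t) l = Yz e w p i n d (l + t) := by
  rw [Yz, Yz, mul_assoc d, ← zpow_add, add_comm t l]
  congr 1
  ring

theorem Yz_per (hk : w ^ k = 1) (n : ℤ) (d : D) (l m : ℤ) : Yz e w p i n d (l + k * m) = Yz e w p i n d l := by
  have h1 : w ^ ((k : ℤ) * m) = 1 := by rw [zpow_mul, zpow_natCast, hk, one_zpow]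
  rw [Yz, Yz]
  symm
  rw [stN_iff]
  exact ⟨k * m, by ring, by rw [zpow_add, h1, mul_one, mul_one]⟩

theorem exists_fin (hk : w ^ k = 1) (k0 : 0 < k) (s : Fin e × D) (l : ℤ) :
    ∃ l' : Fin k, yN e w p i k (s, l') = Yz e w p i s.1 s.2 l := by
  have h0 : (0 : ℤ) < k := by exact_mod_cast k0
  have h1 := Int.emod_nonneg l h0.ne'
  have h2 := Int.emod_lt_of_pos l h0
  refine ⟨⟨(l % k).toNat, by omega⟩, ?_⟩
  rw [yN_eq]
  have h3 : (((l % k).toNat : ℕ) : ℤ) = l % k := by omega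
  show Yz e w p i s.1 s.2 (((l % k).toNat : ℕ) : ℤ) = _
  rw [h3]
  conv_rhs => rw [← Int.emod_add_mul_ediv l k]
  rw [Yz_per hk]

theorem jn_iff (hk : w ^ k = 1) (k0 : 0 < k) {v v' : Fin e × D} :
    JnN e w p i k v v' ↔ ∃ l : ℤ, Yz e w p i v.1 v.2 l = v' ∨ Yz e w p i v'.1 v'.2 l = v := by
  constructor
  · rintro ⟨⟨s, l⟩, ⟨h1, h2⟩ | ⟨h1, h2⟩⟩
    · refine ⟨(l : ℕ), Or.inl ?_⟩
      rw [← h1, ← h2, yN_eq]
    · refine ⟨(l : ℕ), Or.inr ?_⟩
      rw [← h1, ← h2, yN_eq]
  · rintro ⟨l, h | h⟩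
    · obtain ⟨l', hl'⟩ := exists_fin (p := p) (i := i) hk k0 v l
      exact ⟨(v, l'), Or.inl ⟨rfl, by rw [hl', h]⟩⟩
    · obtain ⟨l', hl'⟩ := exists_fin (p := p) (i := i) hk k0 v' l
      exact ⟨(v', l'), Or.inr ⟨rfl, by rw [hl', h]⟩⟩

theorem jn_symm {v v' : Fin e × D} (h : JnN e w p i k v v') : JnN e w p i k v' v := by
  obtain ⟨r, h | h⟩ := h
  · exact ⟨r, Or.inr h⟩
  · exact ⟨r, Or.inl h⟩

theorem act_Yz (m : ℤ) (g : D) (s : Fin e × D) (l : ℤ) :
    ∃ l' : ℤ, Yz e w p i (act e w m g s).1 (act e w m g s).2 l' = act e w m g (Yz e w p i s.1 s.2 l) := by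
  obtain ⟨t, h1, h2⟩ := stN_eq.1 (rfl : act e w m g s = act e w m g s)
  refine ⟨l - t, ?_⟩
  rw [h1, h2, Yz_shift, sub_add_cancel, Yz, Yz, act_st]
  congr 1
  · ring
  · group

theorem jn_act (hk : w ^ k = 1) (k0 : 0 < k) (m : ℤ) (g : D) {v v' : Fin e × D} (h : JnN e w p i k v v') :
    JnN e w p i k (act e w m g v) (act e w m g v') := by
  rw [jn_iff hk k0] at h ⊢
  obtain ⟨l, h | h⟩ := h
  · obtain ⟨l', hl'⟩ := act_Yz (p := p) (i := i) m g v l
    exact ⟨l', Or.inl (by rw [hl', h])⟩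
  · obtain ⟨l', hl'⟩ := act_Yz (p := p) (i := i) m g v' l
    exact ⟨l', Or.inr (by rw [hl', h])⟩

theorem jn_nb (hk : w ^ k = 1) (k0 : 0 < k) (s : Fin e × D) :
    JnN e w p i k s (act e w (i : ℤ) (s.2 * p * s.2⁻¹) s) := by
  rw [jn_iff hk k0]
  obtain ⟨t, h1, h2⟩ := stN_eq.1 (rfl : act e w (i : ℤ) (s.2 * p * s.2⁻¹) s = act e w (i : ℤ) (s.2 * p * s.2⁻¹) s)
  refine ⟨-t, Or.inr ?_⟩
  rw [h1, h2, Yz_shift, neg_add_cancel, Yz, zpow_zero]
  have h3 : s.2 * p * s.2⁻¹ * s.2 * 1 * p⁻¹ = s.2 := by group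
  rw [h3]
  have h4 : (s.1 : ℤ) + i + e * 0 - i = s.1 := by ring
  rw [h4, stN_self]

/-- For a fixed index the other end is a bijective function. -/
theorem yN_inj (l : Fin k) : Function.Injective fun s : Fin e × D => yN e w p i k (s, l) := by
  intro s s' h
  have h' : yN e w p i k (s, l) = yN e w p i k (s', l) := h
  rw [yN_eq, yN_eq, Yz, Yz, stN_iff] at h'
  obtain ⟨t, h1, h2⟩ := h'
  have h3 : ((s.1 : ℕ) : ℤ) < (e : ℤ) := by exact_mod_cast s.1.2
  have h4 : ((s'.1 : ℕ) : ℤ) < (e : ℤ) := by exact_mod_cast s'.1.2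
  have h5 : ((s'.1 : ℕ) : ℤ) = s.1 + e * t := by linarith
  have h6 : t = 0 := by
    have h7 : (0 : ℤ) ≤ (s.1 : ℕ) := by positivity
    have h8 : (0 : ℤ) ≤ (s'.1 : ℕ) := by positivity
    have h9 := e_pos (e := e)
    by_contra hne
    rcases lt_or_gt_of_ne hne with h | h
    · nlinarith
    · nlinarith
  subst h6
  rw [mul_zero, add_zero] at h5
  rw [zpow_zero, mul_one] at h2
  refine Prod.ext (Fin.ext (by exact_mod_cast h5.symm)) ?_
  exact (mul_right_cancel (mul_right_cancel h2)).symm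

/-! ### Parallel rungs -/

/-- Two indices with the same ends. -/
theorem comm_of_same {s : Fin e × D} {l l' : ℤ} (h : Yz e w p i s.1 s.2 l = Yz e w p i s.1 s.2 l') :
    Commute (w ^ (l' - l)) p := by
  rw [Yz, Yz, stN_iff] at h
  obtain ⟨t, h1, h2⟩ := h
  have h3 : t = l' - l := by
    have h4 : (e : ℤ) * t = e * (l' - l) := by linarith
    exact mul_left_cancel₀ (e_ne (e := e)) h4
  subst h3
  have h4 : w ^ (l' - l) * p⁻¹ = p⁻¹ * w ^ (l' - l) := by
    have h5 : s.2 * w ^ l * (w ^ (l' - l) * p⁻¹) = s.2 * w ^ l * (p⁻¹ * w ^ (l' - l)) := by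
      calc s.2 * w ^ l * (w ^ (l' - l) * p⁻¹) = s.2 * (w ^ l * w ^ (l' - l)) * p⁻¹ := by group
        _ = s.2 * w ^ l' * p⁻¹ := by rw [← zpow_add, add_sub_cancel]
        _ = _ := by rw [h2, mul_assoc (s.2 * w ^ l)]
    exact mul_left_cancel h5
  have h5 : Commute (w ^ (l' - l)) p⁻¹ := h4
  rwa [Commute.inv_right_iff] at h5

variable [DecidableEq D]

/-- The indices of the rungs from `a` to `b`. -/
def Li (e : ℕ) [NeZero e] (w p : D) (i k : ℕ) (a b : Fin e × D) : Finset (Fin k) :=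
  Finset.univ.filter fun l => yN e w p i k (a, l) = b

theorem mem_Li {a b : Fin e × D} {l : Fin k} : l ∈ Li e w p i k a b ↔ yN e w p i k (a, l) = b := by
  rw [Li, Finset.mem_filter]
  exact ⟨fun h => h.2, fun h => ⟨Finset.mem_univ _, h⟩⟩

theorem Li_comm {a b : Fin e × D} {l l' : Fin k} (h : l ∈ Li e w p i k a b) (h' : l' ∈ Li e w p i k a b) :
    Commute (w ^ (l' : ℕ) * (w ^ (l : ℕ))⁻¹) p := by
  rw [mem_Li, yN_eq] at h h'
  have h1 := comm_of_same (h.trans h'.symm)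
  rw [sub_eq_add_neg, zpow_add, zpow_neg, zpow_natCast, zpow_natCast] at h1
  exact h1

theorem Li_succ [NeZero k] (hk : w ^ k = 1) (hc : p * w ≠ w * p) {a b : Fin e × D} {l : Fin k}
    (h : l ∈ Li e w p i k a b) : l + 1 ∉ Li e w p i k a b := by
  intro h'
  have h1 := Li_comm h h'
  have h2 : w ^ ((l + 1 : Fin k) : ℕ) = w ^ (l : ℕ) * w := by
    rw [Fin.val_add, ← pow_eq_pow_mod _ hk, Fin.val_one', pow_add, ← pow_eq_pow_mod _ hk, pow_one]
  rw [h2, ← pow_succ, pow_succ', mul_inv_cancel_right] at h1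
  exact hc h1.eq.symm

theorem Li_succ2 [NeZero k] (hk : w ^ k = 1) {a b : Fin e × D} {l : Fin k}
    (h : l ∈ Li e w p i k a b) (h' : l + 1 + 1 ∈ Li e w p i k a b) : Commute (w ^ 2) p := by
  have h1 := Li_comm h h'
  have h2 : w ^ ((l + 1 + 1 : Fin k) : ℕ) = w ^ 2 * w ^ (l : ℕ) := by
    have h3 : ∀ l : Fin k, w ^ ((l + 1 : Fin k) : ℕ) = w ^ (l : ℕ) * w := by
      intro l
      rw [Fin.val_add, ← pow_eq_pow_mod _ hk, Fin.val_one', pow_add, ← pow_eq_pow_mod _ hk, pow_one]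
    rw [h3, h3, ← pow_succ, ← pow_succ, add_assoc, add_comm, pow_add]
  rw [h2, mul_inv_cancel_right] at h1
  exact h1

theorem Li_card [NeZero k] (hk : w ^ k = 1) (hc : p * w ≠ w * p) (a b : Fin e × D) :
    2 * (Li e w p i k a b).card ≤ k ∧
      (2 * (Li e w p i k a b).card = k → (Li e w p i k a b).Nonempty ∧ Commute (w ^ 2) p) := by
  set L := Li e w p i k a b with hL
  set L' := L.image fun l => l + 1 with hL'
  have hinj : Function.Injective fun l : Fin k => l + 1 := add_left_injective 1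
  have h1 : L'.card = L.card := Finset.card_image_of_injective _ hinj
  have h2 : Disjoint L L' := by
    rw [Finset.disjoint_left]
    intro l hl hl'
    obtain ⟨m, hm, rfl⟩ := Finset.mem_image.1 hl'
    exact Li_succ hk hc hm hl
  have h3 : (L ∪ L').card = 2 * L.card := by rw [Finset.card_union_of_disjoint h2, h1]; ring
  have h4 : (L ∪ L').card ≤ k := by
    refine (Finset.card_le_univ _).trans ?_
    rw [Fintype.card_fin]
  refine ⟨by omega, fun h5 => ?_⟩
  have h6 : L ∪ L' = Finset.univ := by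
    rw [← Finset.card_eq_iff_eq_univ, Fintype.card_fin]
    omega
  have hne : L.Nonempty := by
    rw [← Finset.card_pos]
    have := NeZero.pos k
    omega
  refine ⟨hne, ?_⟩
  obtain ⟨l, hl⟩ := hne
  have h7 : l + 1 ∉ L := Li_succ hk hc hl
  have h8 : l + 1 + 1 ∈ L := by
    have h9 : l + 1 + 1 ∈ L ∪ L' := by rw [h6]; exact Finset.mem_univ _
    rcases Finset.mem_union.1 h9 with h | h
    · exact h
    · obtain ⟨m, hm, hm'⟩ := Finset.mem_image.1 h
      exact absurd (hinj hm' ▸ hm) h7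
  exact Li_succ2 hk hl h8

/-- Not all the rungs of a strand are parallel. -/
theorem Li_lt [NeZero k] (hk : w ^ k = 1) (hc : p * w ≠ w * p) (i0 : 0 < i) (ie : i < e) (hco : i.Coprime e)
    (a b : Fin e × D) : (Li e w p i k a b).card + (Li e w p i k b a).card < k := by
  obtain ⟨h1, h2⟩ := Li_card (i := i) hk hc a b
  obtain ⟨h3, h4⟩ := Li_card (i := i) hk hc b a
  by_contra hlt
  obtain ⟨⟨l, hl⟩, h5⟩ := h2 (by omega)
  obtain ⟨⟨m, hm⟩, -⟩ := h4 (by omega)
  rw [mem_Li, yN_eq, Yz, stN_eq] at hl hm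
  obtain ⟨t, t1, t2⟩ := hl
  obtain ⟨s, s1, s2⟩ := hm
  have h6 : (e : ℤ) * (((l : ℕ) : ℤ) + ((m : ℕ) : ℤ) + t + s) = 2 * i := by
    have : (e : ℤ) * (((l : ℕ) : ℤ) + ((m : ℕ) : ℤ) + t + s) =
      (e * ((l : ℕ) : ℤ) + e * t) + (e * ((m : ℕ) : ℤ) + e * s) := by ring
    rw [this]
    linarith
  have h7 : (e : ℤ) ∣ ((2 * i : ℕ) : ℤ) := ⟨_, by rw [h6]; push_cast; ring⟩
  have h8 : e ∣ 2 := (Nat.Coprime.dvd_mul_right (Nat.Coprime.symm hco)).1 (Int.natCast_dvd_natCast.1 h7)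
  have h9 := Nat.le_of_dvd (by norm_num) h8
  have h10 : e = 2 := by omega
  have h11 : i = 1 := by omega
  have h12 : ((l : ℕ) : ℤ) + ((m : ℕ) : ℤ) + t + s = 1 := by
    rw [h10, h11] at h6
    push_cast at h6
    linarith
  refine hc (comm_of_rel h5 (-(((l : ℕ) : ℤ)) - s) ?_)
  have h13 : a.2 = a.2 * (w ^ ((l : ℕ) : ℤ) * p⁻¹ * w ^ t * (w ^ ((m : ℕ) : ℤ) * p⁻¹ * w ^ s)) := by
    conv_lhs => rw [s2, t2]
    group
  have h14 : w ^ ((l : ℕ) : ℤ) * p⁻¹ * w ^ t * (w ^ ((m : ℕ) : ℤ) * p⁻¹ * w ^ s) = 1 := by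
    exact (mul_eq_left.1 h13.symm)
  have h15 : -((l : ℕ) : ℤ) - s + 1 = t + ((m : ℕ) : ℤ) := by linarith
  rw [h15]
  have h16 : w ^ t * w ^ ((m : ℕ) : ℤ) = p * (w ^ ((l : ℕ) : ℤ))⁻¹ * (w ^ s)⁻¹ * p := by
    have h17 : p * (w ^ ((l : ℕ) : ℤ))⁻¹ *
        (w ^ ((l : ℕ) : ℤ) * p⁻¹ * w ^ t * (w ^ ((m : ℕ) : ℤ) * p⁻¹ * w ^ s)) * (w ^ s)⁻¹ * p =
        p * (w ^ ((l : ℕ) : ℤ))⁻¹ * 1 * (w ^ s)⁻¹ * p := by rw [h14]
    rw [mul_one] at h17
    rw [← h17]
    group
  rw [zpow_add, h16, sub_eq_add_neg, zpow_add, zpow_neg, zpow_neg]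
  group

end st

/-! ### The puzzle -/

theorem rtg_symm {α : Type} {r : α → α → Prop} (hs : ∀ a b, r a b → r b a) {a b : α}
    (h : Relation.ReflTransGen r a b) : Relation.ReflTransGen r b a := by
  induction h with
  | refl => exact Relation.ReflTransGen.refl
  | tail _ hbc ih => exact Relation.ReflTransGen.head (hs _ _ hbc) ih

theorem rtg_lift {α : Type} {r : α → α → Prop} (f : α → α) (h : ∀ a b, r a b → r (f a) (f b)) {a b : α}
    (hab : Relation.ReflTransGen r a b) : Relation.ReflTransGen r (f a) (f b) := by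
  induction hab with
  | refl => exact Relation.ReflTransGen.refl
  | tail _ hbc ih => exact ih.tail (h _ _ hbc)

theorem reach_symm {D : Type} [Group D] {e : ℕ} [NeZero e] {w p : D} {i k : ℕ} {a b : Fin e × D}
    (h : Relation.ReflTransGen (JnN e w p i k) a b) : Relation.ReflTransGen (JnN e w p i k) b a :=
  rtg_symm (fun _ _ h => jn_symm h) h

/-- Row GRAPH. -/
theorem graphNS : GraphNS := by
  intro D _ _ _ w p i e k _ i0 ie hco k0 hD hc v₀ A hA J hJ P hx hy
  have : NeZero k := ⟨k0.ne'⟩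
  have hk : w ^ k = 1 := by
    obtain ⟨m, rfl⟩ := hD
    rw [pow_mul, pow_card_eq_one', one_pow]
  have : Fintype {v // A v} := Fintype.ofFinite _
  have : Fintype {r : RgN e k D // J r} := Fintype.ofFinite _
  have h0 : A v₀ := (hA v₀).2 Relation.ReflTransGen.refl
  -- closure
  have hcl' : ∀ {v v' : Fin e × D}, Relation.ReflTransGen (JnN e w p i k) v v' → A v → A v' := by
    intro v v' h hv
    rw [hA] at hv ⊢
    exact hv.trans h
  have hcl : ∀ {v v' : Fin e × D}, JnN e w p i k v v' → A v → A v' :=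
    fun h hv => hcl' (Relation.ReflTransGen.single h) hv
  have hpath : ∀ {v v' : Fin e × D}, A v → A v' → Relation.ReflTransGen (JnN e w p i k) v v' :=
    fun hv hv' => (reach_symm ((hA _).1 hv)).trans ((hA _).1 hv')
  have hN : ∀ a b : {v // A v}, AvoidOf.N P a b ↔ JnN e w p i k a.1 b.1 := by
    intro a b
    constructor
    · rintro ⟨r, ⟨h1, h2⟩ | ⟨h1, h2⟩⟩
      · exact ⟨r.1, Or.inl ⟨by rw [← hx, h1], by rw [← hy, h2]⟩⟩
      · exact ⟨r.1, Or.inr ⟨by rw [← hx, h1], by rw [← hy, h2]⟩⟩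
    · rintro ⟨r, ⟨h1, h2⟩ | ⟨h1, h2⟩⟩
      · exact ⟨⟨r, (hJ r).2 (h1 ▸ a.2)⟩, Or.inl ⟨Subtype.ext (by rw [hx]; exact h1), Subtype.ext (by rw [hy]; exact h2)⟩⟩
      · exact ⟨⟨r, (hJ r).2 (h1 ▸ b.2)⟩, Or.inr ⟨Subtype.ext (by rw [hx]; exact h1), Subtype.ext (by rw [hy]; exact h2)⟩⟩
  have hreach0 : ∀ v, Relation.ReflTransGen (JnN e w p i k) v₀ v → ∀ hv : A v,
      Relation.ReflTransGen (AvoidOf.N P) ⟨v₀, h0⟩ ⟨v, hv⟩ := by
    intro v h
    induction h with
    | refl => intro _; exact Relation.ReflTransGen.refl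
    | @tail b c hb hbc ih =>
      intro hv
      have hb' : A b := (hA b).2 hb
      exact (ih hb').tail ((hN ⟨b, hb'⟩ ⟨c, hv⟩).2 hbc)
  have hNsymm : ∀ a b : {v // A v}, AvoidOf.N P a b → AvoidOf.N P b a := by
    intro a b h
    rw [hN] at h ⊢
    exact jn_symm h
  have hreach : ∀ a b : {v // A v}, Relation.ReflTransGen (AvoidOf.N P) a b := by
    intro a b
    have h1 := hreach0 a.1 ((hA _).1 a.2) a.2
    have h2 := hreach0 b.1 ((hA _).1 b.2) b.2
    exact (rtg_symm (fun a b h => hNsymm a b h) h1).trans h2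
  have hC : ∀ v v' : {v // A v}, Relation.ReflTransGen (fun a b => ∃ r, P.On r a ∧ P.On r b) v v' := by
    intro v v'
    refine Relation.ReflTransGen.mono ?_ _ _ (hreach v v')
    rintro a b ⟨r, ⟨h1, h2⟩ | ⟨h1, h2⟩⟩
    · exact ⟨r, Or.inl h1.symm, Or.inr h2.symm⟩
    · exact ⟨r, Or.inr h2.symm, Or.inl h1.symm⟩
  have hCS : P.ConnS := by
    have key : ∀ {a b : {v // A v}}, Relation.ReflTransGen (fun a b => ∃ r, P.On r a ∧ P.On r b) a b →
        ∀ r r', P.On r a → P.On r' b → Relation.ReflTransGen (fun a b => ∃ v, P.On a v ∧ P.On b v) r r' := by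
      intro a b h
      induction h with
      | refl => intro r r' h1 h2; exact Relation.ReflTransGen.single ⟨_, h1, h2⟩
      | tail _ hbc ih =>
        intro r r' h1 h2
        obtain ⟨q, hq1, hq2⟩ := hbc
        exact (ih r q h1 hq1).tail ⟨_, hq2, h2⟩
    intro r r'
    exact key (hC (P.x r) (P.x r')) r r' (Or.inl rfl) (Or.inl rfl)
  -- the rungs with the given first strand
  let F : {v // A v} → Fin k → {r : RgN e k D // J r} := fun v l => ⟨(v.1, l), (hJ _).2 v.2⟩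
  have hF : ∀ v, Function.Injective (F v) := by
    intro v l l' h
    have := congrArg (fun r : {r : RgN e k D // J r} => r.1.2) h
    exact this
  have hFset : ∀ v u : {v // A v}, {r | P.x r = v ∧ P.y r = u} = F v '' (Li e w p i k v.1 u.1 : Set (Fin k)) := by
    intro v u
    ext r
    simp only [Set.mem_ofPred_eq, Set.mem_image, Finset.mem_coe, mem_Li]
    constructor
    · rintro ⟨h1, h2⟩
      have h3 : r.1.1 = v.1 := by rw [← hx, h1]
      have h4 : F v r.1.2 = r := Subtype.ext (Prod.ext h3.symm rfl)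
      refine ⟨r.1.2, ?_, h4⟩
      rw [← h3, ← h2, hy]
    · rintro ⟨l, h1, rfl⟩
      exact ⟨Subtype.ext (by rw [hx]), Subtype.ext (by rw [hy]; exact h1)⟩
  have hcardF : ∀ v u : {v // A v}, {r | P.x r = v ∧ P.y r = u}.ncard = (Li e w p i k v.1 u.1).card := by
    intro v u
    rw [hFset, Set.ncard_image_of_injective _ (hF v), Set.ncard_coe_finset]
  have hpar' : ∀ v u : {v // A v}, {r | P.On r v ∧ P.oth r v = u}.ncard < k := by
    intro v u
    have h1 : {r | P.On r v ∧ P.oth r v = u} ⊆ {r | P.x r = v ∧ P.y r = u} ∪ {r | P.x r = u ∧ P.y r = v} := by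
      rintro r ⟨h1, h2⟩
      by_cases h3 : v = P.x r
      · rw [oth, if_pos h3] at h2
        exact Or.inl ⟨h3.symm, h2⟩
      · rw [oth, if_neg h3] at h2
        rcases h1 with h1 | h1
        · exact absurd h1 h3
        · exact Or.inr ⟨h2, h1.symm⟩
    refine lt_of_le_of_lt (Set.ncard_le_ncard h1 (Set.toFinite _)) ?_
    refine lt_of_le_of_lt (Set.ncard_union_le _ _) ?_
    rw [hcardF, hcardF]
    exact Li_lt hk hc i0 ie hco v.1 u.1
  have hdeg : ∀ v, {r | P.On r v}.ncard = 2 * k := by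
    intro v
    have h1 : {r | P.On r v} = {r | P.x r = v} ∪ {r | P.y r = v} := by
      ext r
      exact ⟨fun h => h.imp (fun h => h.symm) (fun h => h.symm), fun h => h.imp (fun h => h.symm) (fun h => h.symm)⟩
    have h2 : Disjoint {r | P.x r = v} {r | P.y r = v} := by
      rw [Set.disjoint_left]
      intro r h3 h4
      exact P.ne r ((h3 : P.x r = v).trans (h4 : P.y r = v).symm)
    rw [h1, Set.ncard_union_eq h2 (Set.toFinite _) (Set.toFinite _)]
    have h3 : {r | P.x r = v}.ncard = k := by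
      have h4 : {r | P.x r = v} = F v '' Set.univ := by
        ext r
        rw [Set.image_univ, Set.mem_range]
        constructor
        · intro h5
          exact ⟨r.1.2, Subtype.ext (Prod.ext (by rw [← hx r, (h5 : P.x r = v)]) rfl)⟩
        · rintro ⟨l, rfl⟩
          exact Subtype.ext (by rw [hx])
      rw [h4, Set.ncard_image_of_injective _ (hF v), Set.ncard_univ, Nat.card_fin]
    have h4 : {r | P.y r = v}.ncard = k := by
      have h5 : ∀ l : Fin k, ∃ s : Fin e × D, yN e w p i k (s, l) = v.1 := fun l =>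
        (Finite.injective_iff_surjective.1 (yN_inj (w := w) (p := p) (i := i) l)) v.1
      choose s hs using h5
      have hs' : ∀ l, A (s l) := fun l => hcl ⟨(s l, l), Or.inr ⟨rfl, hs l⟩⟩ v.2
      have h6 : {r | P.y r = v} = (fun l => (⟨(s l, l), (hJ _).2 (hs' l)⟩ : {r : RgN e k D // J r})) '' Set.univ := by
        ext r
        rw [Set.image_univ, Set.mem_range]
        constructor
        · intro h7
          refine ⟨r.1.2, Subtype.ext (Prod.ext ?_ rfl)⟩
          refine yN_inj (w := w) (p := p) (i := i) r.1.2 ?_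
          show yN e w p i k (s r.1.2, r.1.2) = yN e w p i k (r.1.1, r.1.2)
          rw [hs, ← (h7 : P.y r = v), hy]
        · rintro ⟨l, rfl⟩
          exact Subtype.ext (by rw [hy]; exact hs l)
      rw [h6, Set.ncard_image_of_injective, Set.ncard_univ, Nat.card_fin]
      intro l l' h
      have := congrArg (fun r : {r : RgN e k D // J r} => r.1.2) h
      exact this
    rw [h3, h4]
    ring
  have hpar : ∀ v u, {r | P.On r v ∧ P.oth r v = u}.ncard ≤ k := fun v u => (hpar' v u).le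
  refine ⟨?_, ?_, ?_, hCS, hdeg⟩
  · rcases SQ4.scon_or k0 hdeg hpar hC with h | ⟨K, hK⟩
    · exact h
    · obtain ⟨u, h1, -⟩ := hK.mat ⟨v₀, h0⟩
      exact absurd h1 (hpar' _ _).ne
  · intro r v hv
    by_contra hno
    push Not at hno
    have h1 : {r | P.On r v} ⊆ {r' | P.On r' v ∧ P.oth r' v = P.oth r v} := by
      intro r' hr'
      refine ⟨hr', ?_⟩
      by_contra h2
      exact hno r' ⟨hv, hr', fun h => h2 h.symm⟩
    have h2 := Set.ncard_le_ncard h1 (Set.toFinite _)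
    rw [hdeg] at h2
    have h3 := hpar' v (P.oth r v)
    omega
  · refine SQ4.noCut_of_free (fun s => ?_) hCS
    set g : D := s.1.2 * p * s.1.2⁻¹ with hg
    have hi : ¬ (e : ℤ) ∣ (i : ℤ) := by
      intro h
      have h1 := Nat.le_of_dvd i0 (Int.natCast_dvd_natCast.1 h)
      omega
    have hsg : JnN e w p i k s.1 (act e w i g s.1) := jn_nb hk k0 s.1
    have hl : ∀ a, act e w (-(i : ℤ)) g⁻¹ (act e w i g a) = a := (actP e w i g).left_inv
    have hr : ∀ a, act e w i g (act e w (-(i : ℤ)) g⁻¹ a) = a := (actP e w i g).right_inv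
    have hclo : ∀ a, A a ↔ A (act e w i g a) := by
      intro a
      constructor
      · intro ha
        have h1 := rtg_lift (act e w i g) (fun _ _ h => jn_act hk k0 i g h) (hpath s.2 ha)
        exact hcl' h1 (hcl hsg s.2)
      · intro ha
        have h1 := rtg_lift (act e w (-(i : ℤ)) g⁻¹) (fun _ _ h => jn_act hk k0 (-(i : ℤ)) g⁻¹ h)
          (hpath (hcl hsg s.2) ha)
        rw [hl, hl] at h1
        exact hcl' h1 s.2
    refine ⟨⟨fun a => ⟨act e w i g a.1, (hclo _).1 a.2⟩,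
      fun a => ⟨act e w (-(i : ℤ)) g⁻¹ a.1, (hclo _).2 (by rw [hr]; exact a.2)⟩,
      fun a => Subtype.ext (hl a.1), fun a => Subtype.ext (hr a.1)⟩, ?_, ?_, ?_⟩
    · intro a b
      rw [hN, hN]
      constructor
      · intro h
        have h1 := jn_act hk k0 (-(i : ℤ)) g⁻¹ h
        have h2 : JnN e w p i k (act e w (-(i : ℤ)) g⁻¹ (act e w i g a.1)) (act e w (-(i : ℤ)) g⁻¹ (act e w i g b.1)) := h1
        rwa [hl, hl] at h2
      · intro h
        exact jn_act hk k0 i g h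
    · intro a h
      exact act_ne hi g a.1 (congrArg Subtype.val h)
    · rw [hN]
      exact hsg

end Pool.Agent.Lib.MP_688fd0_co.SQ5.H88
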